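import Pool.Agent.W458.MF.OStm

/-! MFO project (helper458), part OCNTS (helper930): count, split pattern with class. -/

set_option autoImplicit false

open Polynomial

namespace Pool.Agent.W930.MFO

open Pool.Agent.W521.Frob Pool.Agent.W458.MF

section

variable {l : ℕ} [Fact l.Prime]

/-- the traces of the classes -/
def AA (r κ : ZMod l) : Set (ZMod l) :=
  {t | ∃ a : ZMod l, a ≠ 0 ∧ t = a + r ^ 2 / a ∧ a ^ 2 ≠ r ^ 2 ∧ IsSquare (κ * (r * a))}

open Classical in
theorem card_AA (r κ : ZMod l) (hr : r ≠ 0) (hκ : κ ≠ 0) :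
    l ≤ 4 * (Finset.univ.filter fun t => t ∈ AA r κ).card + 5 := by
  set D : Finset (ZMod l) := Finset.univ.filter fun s => s ≠ 0 ∧ κ ^ 2 * s ^ 4 ≠ 1 with hD
  set τ : ZMod l → ZMod l := fun s => r * κ * s ^ 2 + r ^ 2 / (r * κ * s ^ 2) with hτ
  -- the complement of `D` is small
  have h1 : Dᶜ.card ≤ 5 := by
    set Q : (ZMod l)[X] := X * (C (κ ^ 2) * X ^ 4 - 1) with hQ
    have hQ1 : (C (κ ^ 2) * X ^ 4 - 1 : (ZMod l)[X]) ≠ 0 := by
      intro h
      have h2 := congrArg (fun q => q.coeff 0) h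
      simp at h2
    have hQ0 : Q ≠ 0 := mul_ne_zero X_ne_zero hQ1
    have hQd : Q.natDegree ≤ 5 := by
      rw [hQ]
      compute_degree
    have hsub : Dᶜ ⊆ Q.roots.toFinset := by
      intro s hs
      rw [Finset.mem_compl, hD, Finset.mem_filter] at hs
      rw [Multiset.mem_toFinset, mem_roots hQ0, IsRoot.def, hQ]
      simp only [eval_mul, eval_X, eval_sub, eval_C, eval_pow, eval_one]
      by_cases h0 : s = 0
      · rw [h0, zero_mul]
      · have h3 : κ ^ 2 * s ^ 4 = 1 := by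
          by_contra h3
          exact hs ⟨Finset.mem_univ _, h0, h3⟩
        rw [h3, sub_self, mul_zero]
    exact (Finset.card_le_card hsub).trans ((Multiset.toFinset_card_le _).trans
      ((card_roots' Q).trans hQd))
  have h2 : D.card + Dᶜ.card = l := by
    rw [Finset.card_add_card_compl, ZMod.card]
  -- the fibres
  have h3 : D.card ≤ 4 * (D.image τ).card := by
    apply Finset.card_le_mul_card_image
    intro t _
    set Q : (ZMod l)[X] := C (r * κ ^ 2) * X ^ 4 - C (t * κ) * X ^ 2 + C r with hQ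
    have hQ0 : Q ≠ 0 := by
      intro h
      have h4 := congrArg (fun q => q.coeff 0) h
      rw [hQ] at h4
      simp at h4
      exact hr h4
    have hQd : Q.natDegree ≤ 4 := by
      rw [hQ]
      compute_degree
    have hsub : (D.filter fun s => τ s = t) ⊆ Q.roots.toFinset := by
      intro s hs
      rw [Finset.mem_filter, hD, Finset.mem_filter] at hs
      obtain ⟨⟨_, hs0, _⟩, hst⟩ := hs
      rw [Multiset.mem_toFinset, mem_roots hQ0, IsRoot.def, hQ]
      simp only [eval_mul, eval_X, eval_sub, eval_C, eval_pow, eval_add]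
      rw [← hst, hτ]
      field_simp
      ring
    exact (Finset.card_le_card hsub).trans ((Multiset.toFinset_card_le _).trans
      ((card_roots' Q).trans hQd))
  have h4 : D.image τ ⊆ Finset.univ.filter fun t => t ∈ AA r κ := by
    intro t ht
    obtain ⟨s, hs, rfl⟩ := Finset.mem_image.1 ht
    rw [hD, Finset.mem_filter] at hs
    obtain ⟨_, hs0, hs4⟩ := hs
    rw [Finset.mem_filter]
    refine ⟨Finset.mem_univ _, r * κ * s ^ 2, ?_, rfl, ?_, ⟨κ * r * s, by ring⟩⟩
    · exact mul_ne_zero (mul_ne_zero hr hκ) (pow_ne_zero 2 hs0)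
    · intro h
      apply hs4
      have h5 : r ^ 2 * (κ ^ 2 * s ^ 4) = r ^ 2 * 1 := by linear_combination h
      exact mul_left_cancel₀ (pow_ne_zero 2 hr) h5
  have h5 := Finset.card_le_card h4
  omega

/-- the polynomials `X² - tX + γ` for different `t` are coprime -/
theorem coprime_P {γ : ZMod l} (hγ : γ ≠ 0) {t t' : ZMod l} (h : t ≠ t') :
    IsCoprime (X ^ 2 - C t * X + C γ) (X ^ 2 - C t' * X + C γ) := by
  have hd : t - t' ≠ 0 := sub_ne_zero.2 h
  -- `P' - P = (t - t') X`, `P = X (X - t) + γ`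
  refine ⟨C (γ⁻¹) * (1 + (X - C t) * C ((t - t')⁻¹)), C (γ⁻¹) * (-((X - C t) * C ((t - t')⁻¹))), ?_⟩
  have h1 : (C (t - t')⁻¹ * (C t - C t') : (ZMod l)[X]) = 1 := by
    rw [← C_sub, ← C_mul, inv_mul_cancel₀ hd, C_1]
  have h2 : (C γ⁻¹ * C γ : (ZMod l)[X]) = 1 := by
    rw [← C_mul, inv_mul_cancel₀ hγ, C_1]
  linear_combination (C γ⁻¹ * (-(X - C t) * X)) * h1 + h2

theorem split_P {r a t : ZMod l} (ha : a ≠ 0) (ht : t = a + r ^ 2 / a) :
    (X ^ 2 - C t * X + C (r ^ 2) : (ZMod l)[X]) = (X - C a) * (X - C (r ^ 2 / a)) := by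
  have h1 : (C t : (ZMod l)[X]) = C a + C (r ^ 2 / a) := by rw [ht, C_add]
  have h2 : (C (r ^ 2) : (ZMod l)[X]) = C a * C (r ^ 2 / a) := by
    rw [← C_mul, mul_div_cancel₀ _ ha]
  rw [h1, h2]; ring

theorem sqfree_P {r a t : ZMod l} (ha : a ≠ 0) (ht : t = a + r ^ 2 / a) (hne : a ^ 2 ≠ r ^ 2) :
    Squarefree (X ^ 2 - C t * X + C (r ^ 2) : (ZMod l)[X]) := by
  rw [split_P ha ht]
  have h1 : a - r ^ 2 / a ≠ 0 := by
    intro h
    apply hne
    field_simp at h
    rw [mul_zero] at h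
    exact sub_eq_zero.1 h
  have h2 : IsCoprime (X - C a) (X - C (r ^ 2 / a) : (ZMod l)[X]) :=
    isCoprime_X_sub_C_of_isUnit_sub (isUnit_iff_ne_zero.2 h1)
  rw [squarefree_mul_iff]
  exact ⟨h2.isRelPrime, (irreducible_X_sub_C _).squarefree, (irreducible_X_sub_C _).squarefree⟩

theorem rev_lin {γ a : ZMod l} (hγ : γ ≠ 0) :
    (((X - C a).comp (C γ * X) : (ZMod l)[X])).reverse = C γ - C a * X := by
  rw [sub_comp, X_comp, C_comp]
  have h1 : (C γ * X - C a : (ZMod l)[X]).natDegree = 1 := by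
    rw [natDegree_sub_C, natDegree_C_mul_X _ hγ]
  ext n
  rw [coeff_reverse, h1]
  rcases n with _ | _ | n
  · simp [revAt_le]
  · simp [revAt_le]
  · rw [revAt_eq_self_of_lt (by omega)]
    simp [coeff_X, coeff_C]

theorem rev_prod {γ : ZMod l} (hγ : γ ≠ 0) (T : Finset (ZMod l)) (a : ZMod l → ZMod l)
    (ha : ∀ t ∈ T, a t ≠ 0) :
    ((∏ t ∈ T, (X - C (a t)) : (ZMod l)[X]).comp (C γ * X)).reverse =
      ∏ t ∈ T, (C γ - C (a t) * X) := by
  classical
  induction T using Finset.induction_on with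
  | empty => rw [Finset.prod_empty, Finset.prod_empty, one_comp, ← C_1, reverse_C]
  | insert t T ht ih =>
    rw [Finset.prod_insert ht, Finset.prod_insert ht, mul_comp, reverse_mul_of_domain,
      rev_lin hγ,
      ih fun s hs => ha s (Finset.mem_insert_of_mem hs)]

theorem weilm_prod (hWM : St_WM) (γ : ZMod l) (T : Finset (ZMod l)) :
    weilm γ (∏ t ∈ T, (X - C t)) = ∏ t ∈ T, (X ^ 2 - C t * X + C γ) := by
  classical
  obtain ⟨h1, h2, h3, _, _⟩ := hWM l Fact.out γ
  induction T using Finset.induction_on with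
  | empty =>
    rw [Finset.prod_empty, Finset.prod_empty]
    have h4 := h3 1 monic_one
    rw [natDegree_one, mul_zero] at h4
    exact eq_one_of_monic_natDegree_zero h4.1 h4.2
  | insert t T ht ih =>
    rw [Finset.prod_insert ht, Finset.prod_insert ht,
      h1 _ _ (monic_X_sub_C t) (monic_prod_of_monic _ _ fun s _ => monic_X_sub_C s), h2, ih]

theorem sq_prod {r κ : ZMod l} (T : Finset (ZMod l)) (a : ZMod l → ZMod l) (t1 : ZMod l)
    (ht1 : t1 ∈ T) (h1 : IsSquare (κ * (r * a t1)))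
    (h2 : ∀ t ∈ T.erase t1, IsSquare (r * a t)) : IsSquare (κ * ∏ t ∈ T, (r * a t)) := by
  classical
  rw [← Finset.mul_prod_erase T _ ht1, ← mul_assoc]
  exact h1.mul (Finset.isSquare_prod _ h2)

/-- the polynomials attached to good sets -/
theorem mem_of_good (hWM : St_WM) (g r : ℕ) (hr : (r : ZMod l) ≠ 0) (κ : (ZMod l)ˣ)
    (T : Finset (ZMod l)) (hT : T.card = g) (t1 : ZMod l) (ht1 : t1 ∈ T)
    (h1 : t1 ∈ AA (r : ZMod l) (κ : ZMod l)) (h2 : ∀ t ∈ T.erase t1, t ∈ AA (r : ZMod l) 1) :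
    (∏ t ∈ T, (X - C t)) ∈ splitSet g l (r ^ 2) ∩ halved g l r κ := by
  classical
  have hall : ∀ t ∈ T, ∃ a : ZMod l, a ≠ 0 ∧ t = a + (r : ZMod l) ^ 2 / a ∧
      a ^ 2 ≠ (r : ZMod l) ^ 2 ∧ (t = t1 → IsSquare ((κ : ZMod l) * (r * a))) ∧
      (t ≠ t1 → IsSquare ((r : ZMod l) * a)) := by
    intro t ht
    by_cases h : t = t1
    · obtain ⟨a, ha1, ha2, ha3, ha4⟩ := h1
      exact ⟨a, ha1, by rw [h]; exact ha2, ha3, fun _ => ha4, fun h' => absurd h h'⟩
    · obtain ⟨a, ha1, ha2, ha3, ha4⟩ := h2 t (Finset.mem_erase.2 ⟨h, ht⟩)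
      exact ⟨a, ha1, ha2, ha3, fun h' => absurd h' h, fun _ => by rwa [one_mul] at ha4⟩
  choose! a ha1 ha2 ha3 ha4 ha5 using hall
  have hγ : (r : ZMod l) ^ 2 ≠ 0 := pow_ne_zero 2 hr
  refine ⟨⟨T, hT, rfl, fun t ht => ?_⟩, ?_⟩
  · have h3 : t ^ 2 - 4 * (((r ^ 2 : ℕ)) : ZMod l) = (a t - (r : ZMod l) ^ 2 / a t) ^ 2 := by
      have h4 := ha1 t ht
      conv_lhs => rw [ha2 t ht]
      push_cast
      field_simp
      ring
    rw [h3]
    refine ⟨⟨_, sq _⟩, pow_ne_zero 2 ?_⟩
    intro h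
    apply ha3 t ht
    have h4 := ha1 t ht
    field_simp at h
    rw [mul_zero] at h
    exact sub_eq_zero.1 h
  · refine ⟨monic_prod_of_monic _ _ fun s _ => monic_X_sub_C s, ?_, ?_, ?_⟩
    · rw [natDegree_prod_of_monic _ _ fun s _ => monic_X_sub_C s]
      simp [hT]
    · rw [weilm_prod hWM]
      refine Finset.squarefree_prod_of_pairwise_isCoprime ?_ fun t ht =>
        sqfree_P (ha1 t ht) (ha2 t ht) (ha3 t ht)
      intro t _ t' _ htt'
      exact (coprime_P hγ htt').isRelPrime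
    · refine ⟨∏ t ∈ T, (X - C (a t)), monic_prod_of_monic _ _ fun s _ => monic_X_sub_C _, ?_, ?_,
        ?_, ?_⟩
      · rw [natDegree_prod_of_monic _ _ fun s _ => monic_X_sub_C _]
        simp [hT]
      · rw [coeff_zero_prod, Finset.prod_ne_zero_iff]
        intro t ht
        simp [ha1 t ht]
      · have h5 : (-1 : ZMod l) ^ g * (∏ t ∈ T, (X - C (a t))).coeff 0 * (r : ZMod l) ^ g =
            ∏ t ∈ T, ((r : ZMod l) * a t) := by
          rw [coeff_zero_prod, Finset.prod_mul_distrib, Finset.prod_const, hT]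
          have h6 : ∏ t ∈ T, (X - C (a t) : (ZMod l)[X]).coeff 0 = (-1) ^ g * ∏ t ∈ T, a t := by
            rw [← hT, ← Finset.prod_const, ← Finset.prod_mul_distrib]
            refine Finset.prod_congr rfl fun t _ => ?_
            simp
          rw [h6]
          have h7 : (-1 : ZMod l) ^ g * (-1) ^ g = 1 := by
            rw [← mul_pow]; norm_num
          linear_combination ((∏ t ∈ T, a t) * (r : ZMod l) ^ g) * h7
        rw [h5]
        exact sq_prod T a t1 ht1 (ha4 t1 ht1 rfl) fun t ht =>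
          ha5 t (Finset.mem_of_mem_erase ht) (Finset.ne_of_mem_erase ht)
      · have h9 : C (∏ t ∈ T, (X - C (a t) : (ZMod l)[X]).coeff 0) =
            ∏ t ∈ T, C ((X - C (a t) : (ZMod l)[X]).coeff 0) := map_prod C _ _
        rw [weilm_prod hWM, rev_prod hγ T a ha1, coeff_zero_prod, h9,
          ← Finset.prod_mul_distrib, ← Finset.prod_mul_distrib]
        refine Finset.prod_congr rfl fun t ht => ?_
        rw [split_P (ha1 t ht) (ha2 t ht)]
        have h8 : (C (a t) * C ((r : ZMod l) ^ 2 / a t) : (ZMod l)[X]) = C ((r : ZMod l) ^ 2) := by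
          rw [← C_mul, mul_div_cancel₀ _ (ha1 t ht)]
        simp only [coeff_sub, coeff_X_zero, coeff_C_zero, zero_sub, C_neg]
        linear_combination (X - C (a t)) * h8

open Classical in
/-- the number of good sets -/
theorem count_good (g : ℕ) (A B : Finset (ZMod l)) (a : ℕ) (hA : a + g ≤ A.card)
    (hB : a + g ≤ B.card) :
    a ^ g * a ≤ g.factorial * ((g + 1) * ((Finset.univ : Finset (Finset (ZMod l))).filter fun T =>
      T.card = g + 1 ∧ ∃ t ∈ T, t ∈ B ∧ T.erase t ⊆ A).card) := by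
  set G := (Finset.univ : Finset (Finset (ZMod l))).filter fun T =>
      T.card = g + 1 ∧ ∃ t ∈ T, t ∈ B ∧ T.erase t ⊆ A with hG
  -- pairs
  set Pr : Finset ((_ : Finset (ZMod l)) × ZMod l) :=
    (A.powersetCard g).sigma fun T => B \ T with hPr
  have h1 : A.card.choose g * a ≤ Pr.card := by
    rw [hPr, Finset.card_sigma, ← Finset.card_powersetCard, ← smul_eq_mul]
    apply Finset.card_nsmul_le_sum
    intro T hT
    have h2 := (Finset.mem_powersetCard.1 hT).2
    have h3 := Finset.le_card_sdiff T B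
    omega
  have h2 : Pr.card ≤ (G.sigma fun T => T).card := by
    refine Finset.card_le_card_of_injOn (fun x => ⟨insert x.2 x.1, x.2⟩) ?_ ?_
    · rintro ⟨T, t⟩ hx
      rw [hPr] at hx
      have hx' := Finset.mem_sigma.1 hx
      obtain ⟨hT, ht⟩ := hx'
      simp only at hT ht
      obtain ⟨hTA, hTc⟩ := Finset.mem_powersetCard.1 hT
      obtain ⟨htB, htT⟩ := Finset.mem_sdiff.1 ht
      simp only
      refine Finset.mem_sigma.2 ⟨?_, Finset.mem_insert_self _ _⟩
      rw [hG, Finset.mem_filter]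
      refine ⟨Finset.mem_univ _, by rw [Finset.card_insert_of_notMem htT, hTc], t,
        Finset.mem_insert_self _ _, htB, ?_⟩
      rw [Finset.erase_insert htT]
      exact hTA
    · rintro ⟨T, t⟩ hx ⟨T', t'⟩ hx' h
      rw [hPr] at hx hx'
      have h3 := (Finset.mem_sdiff.1 (Finset.mem_sigma.1 hx).2).2
      have h4 := (Finset.mem_sdiff.1 (Finset.mem_sigma.1 hx').2).2
      simp only at h3 h4 h
      injection h with h5 h6
      have h6' : t = t' := eq_of_heq (by simpa using h6)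
      subst h6'
      have h7 : T = T' := by
        rw [← Finset.erase_insert h3, h5, Finset.erase_insert h4]
      rw [h7]
  have h3 : (G.sigma fun T => T).card = G.card * (g + 1) := by
    rw [Finset.card_sigma, Finset.sum_const_nat]
    intro T hT
    rw [hG, Finset.mem_filter] at hT
    exact hT.2.1
  have h4 : a ^ g ≤ g.factorial * A.card.choose g := by
    have h5 : (A.card + 1 - g) ^ g ≤ g.factorial * A.card.choose g := by
      rw [← Nat.descFactorial_eq_factorial_mul_choose]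
      exact Nat.pow_sub_le_descFactorial _ _
    refine le_trans (Nat.pow_le_pow_left (by omega) g) h5
  calc a ^ g * a ≤ (g.factorial * A.card.choose g) * a := Nat.mul_le_mul_right _ h4
    _ = g.factorial * (A.card.choose g * a) := by ring
    _ ≤ g.factorial * (G.card * (g + 1)) := Nat.mul_le_mul_left _ (h1.trans (h2.trans h3.le))
    _ = _ := by ring

theorem prod_inj : Function.Injective fun T : Finset (ZMod l) => ∏ t ∈ T, (X - C t) := by
  intro T T' h
  have h1 := congrArg roots h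
  simp only [roots_prod_X_sub_C] at h1
  exact Finset.val_injective h1

end

theorem ocnts (hWM : St_WM) : St_OCNTS := by
  intro g hg
  obtain ⟨g, rfl⟩ : ∃ g', g = g' + 1 := ⟨g - 1, by omega⟩
  refine ⟨1 / (8 ^ (g + 1) * ((g + 1) * g.factorial)), by positivity, 8 * g + 10, ?_⟩
  intro l hl hlg r hr κ
  haveI : Fact l.Prime := ⟨hl⟩
  classical
  have hr' : (r : ZMod l) ≠ 0 := by
    rwa [Ne, ZMod.natCast_eq_zero_iff]
  set A : Finset (ZMod l) := Finset.univ.filter fun t => t ∈ AA (r : ZMod l) 1 with hA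
  set B : Finset (ZMod l) := Finset.univ.filter fun t => t ∈ AA (r : ZMod l) (κ : ZMod l) with hB
  have h1 := card_AA (r : ZMod l) 1 hr' one_ne_zero
  have h2 := card_AA (r : ZMod l) (κ : ZMod l) hr' κ.ne_zero
  rw [← hA] at h1
  rw [← hB] at h2
  set a : ℕ := (l + 7) / 8 with ha
  have h3 := count_good g A B a (by omega) (by omega)
  set G := (Finset.univ : Finset (Finset (ZMod l))).filter fun T =>
      T.card = g + 1 ∧ ∃ t ∈ T, t ∈ B ∧ T.erase t ⊆ A with hG
  have hfin : (splitSet (g + 1) l (r ^ 2) ∩ halved (g + 1) l r κ).Finite := by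
    refine Set.Finite.subset (Set.finite_range fun T : Finset (ZMod l) => ∏ t ∈ T, (X - C t)) ?_
    rintro f ⟨⟨T, _, hf, _⟩, _⟩
    exact ⟨T, hf.symm⟩
  have h4 : G.card ≤ (splitSet (g + 1) l (r ^ 2) ∩ halved (g + 1) l r κ).ncard := by
    rw [← Finset.card_image_of_injective G prod_inj, ← Set.ncard_coe_finset]
    refine Set.ncard_le_ncard ?_ hfin
    intro f hf
    rw [Finset.mem_coe, Finset.mem_image] at hf
    obtain ⟨T, hT, rfl⟩ := hf
    rw [hG, Finset.mem_filter] at hT
    obtain ⟨_, hTc, t, htT, htB, htA⟩ := hT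
    refine mem_of_good hWM (g + 1) r hr' κ T hTc t htT ?_ fun s hs => ?_
    · rw [hB, Finset.mem_filter] at htB
      exact htB.2
    · have := htA hs
      rw [hA, Finset.mem_filter] at this
      exact this.2
  have h5 : (l : ℝ) ≤ 8 * a := by
    have : l ≤ 8 * a := by omega
    exact_mod_cast this
  have h6 : (a : ℝ) ^ (g + 1) ≤ g.factorial * ((g + 1) * G.card) := by
    rw [pow_succ]
    exact_mod_cast h3
  have h7 : (G.card : ℝ) ≤ ((splitSet (g + 1) l (r ^ 2) ∩ halved (g + 1) l r κ).ncard : ℝ) := by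
    exact_mod_cast h4
  refine le_trans ?_ h7
  rw [one_div, inv_mul_le_iff₀ (by positivity)]
  calc (l : ℝ) ^ (g + 1) ≤ (8 * a) ^ (g + 1) := pow_le_pow_left₀ (by positivity) h5 _
    _ = 8 ^ (g + 1) * (a : ℝ) ^ (g + 1) := mul_pow _ _ _
    _ ≤ 8 ^ (g + 1) * (g.factorial * ((g + 1) * G.card)) := by gcongr
    _ = _ := by ring

end Pool.Agent.W930.MFO
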